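import Pool.Agent.Helper43_HAM.Stmts

/-!
# Module TIL: every helical system has tiles
-/

namespace Pool.Agent.HAM.H4

/-! ### Networks in normal form -/

/-- there is a word in normal form which creates `J` edges -/
def NN {Ω Ω' : Type} [Fintype Ω'] [DecidableEq Ω] (π : Ω' → Ω) (U : List (Ω → Fin 3))
    (U' : List (Ω' → Fin 3)) (J : ℕ) (w : List Op) : Prop :=
  Normal w U.length U'.length J ∧
  ∀ F, EvenF F → ∀ (l r : List (Fin 3)) (ω : Ω),
    app (shift l.length w) F (l ++ (U.map (· ω) ++ r)) =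
      ∑ ω' : Ω', if π ω' = ω then F (l ++ (U'.map (· ω') ++ r)) else 0

theorem nn (hNOR : NorStmt) {Ω Ω' : Type} [Fintype Ω'] [DecidableEq Ω] {π : Ω' → Ω}
    {U : List (Ω → Fin 3)} {U' : List (Ω' → Fin 3)} (h : Tr π U U') (h1 : 2 ≤ U.length)
    (h2 : 2 ≤ U'.length) : ∃ J₀, ∀ J, J₀ ≤ J → Even J → ∃ w, NN π U U' J w := by
  obtain ⟨w, hr, hl, hw⟩ := h
  obtain ⟨J₀, hJ⟩ := hNOR w _ _ hr hl h1 h2
  refine ⟨J₀, fun J hJ0 hJe => ?_⟩
  obtain ⟨w', hn, hw'⟩ := hJ J hJ0 hJe
  refine ⟨w', hn, fun F hF l r ω => ?_⟩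
  rw [hw' F hF l _ r (by rw [List.length_map]), hw F hF l r ω]

/-- the word for one network, with some number of edges -/
theorem nn1 (hNOR : NorStmt) {Ω Ω' : Type} [Fintype Ω'] [DecidableEq Ω] {π : Ω' → Ω}
    {U : List (Ω → Fin 3)} {U' : List (Ω' → Fin 3)} (h : Tr π U U') (h1 : 2 ≤ U.length)
    (h2 : 2 ≤ U'.length) : ∃ J w, NN π U U' J w := by
  obtain ⟨J₀, hJ⟩ := nn hNOR h h1 h2
  exact ⟨2 * J₀, hJ (2 * J₀) (by omega) (even_two_mul J₀)⟩

/-! ### Bits and reference wires -/

section wires

variable {Ω : Type}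

theorem refs_eq : (refs : List (Ω → Fin 3)) = refs ++ ([] : List (Fin 3)).map cw := by
  rw [List.map_nil, List.append_nil]

theorem refs_refs (R : List (Ω → Fin 3)) :
    (refs : List (Ω → Fin 3)) ++ (refs ++ R) = (refs ++ [1, 2, 2].map cw) ++ R := rfl

theorem map_refs (ω : Ω) : (refs : List (Ω → Fin 3)).map (· ω) = [1, 2, 2] := rfl

theorem refs_comp {Ω' : Type} (π : Ω' → Ω) :
    (refs : List (Ω → Fin 3)).map (· ∘ π) = (refs : List (Ω' → Fin 3)) := rfl

theorem length_refs : (refs : List (Ω → Fin 3)).length = 3 := rfl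

variable [Fintype Ω] [DecidableEq Ω]

/-- two reference blocks can be merged and created -/
theorem two_refs (hCON : ConStmt) (hTCX : TcxStmt) (R : List (Ω → Fin 3)) :
    Tr (id : Ω → Ω) (refs ++ (refs ++ R)) (refs ++ R) ∧
    Tr (id : Ω → Ω) (refs ++ R) (refs ++ (refs ++ R)) := by
  have h (c c' : List (Fin 3)) : Tr (id : Ω → Ω) ((refs ++ c.map cw) ++ R)
      ((refs ++ c'.map cw) ++ R) := by
    have h1 := hTCX Ω Ω id (refs ++ c.map cw) [] R (refs ++ c'.map cw) (hCON Ω c c')
    simpa using h1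
  refine ⟨?_, ?_⟩
  · have h1 := h [1, 2, 2] []
    rw [← refs_refs, ← refs_eq] at h1
    exact h1
  · have h1 := h [] [1, 2, 2]
    rw [← refs_refs, ← refs_eq] at h1
    exact h1

theorem comp_id (hTCO : TcoStmt) {U U' U'' : List (Ω → Fin 3)} (h : Tr (id : Ω → Ω) U U')
    (h' : Tr (id : Ω → Ω) U' U'') : Tr (id : Ω → Ω) U U'' :=
  hTCO Ω Ω Ω id id U U' U'' h h'

/-- two blocks of bits with references -/
theorem two_blocks (hCON : ConStmt) (hTCO : TcoStmt) (hTCX : TcxStmt) (hTPE : TpeStmt)
    (P P' : List (Ω → Fin 3)) :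
    Tr (id : Ω → Ω) ((refs ++ P) ++ (refs ++ P')) (refs ++ (P ++ P')) ∧
    Tr (id : Ω → Ω) (refs ++ (P ++ P')) ((refs ++ P) ++ (refs ++ P')) := by
  have hp : ((refs ++ P) ++ (refs ++ P')).Perm (refs ++ (refs ++ (P ++ P'))) := by
    rw [List.append_assoc]
    refine List.Perm.append_left _ ?_
    rw [← List.append_assoc, ← List.append_assoc]
    exact List.Perm.append_right _ List.perm_append_comm
  refine ⟨?_, ?_⟩
  · refine comp_id hTCO (hTPE Ω _ _ hp ?_) (two_refs hCON hTCX _).1
    simp only [List.length_append, length_refs]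
    omega
  · refine comp_id hTCO (two_refs hCON hTCX _).2 (hTPE Ω _ _ hp.symm ?_)
    simp only [List.length_append, length_refs]
    omega

end wires

/-! ### The code of the states -/

section code

variable {Q : Type} [Fintype Q] [DecidableEq Q]

/-- the bits of a state -/
noncomputable def bits (Q : Type) [Fintype Q] [DecidableEq Q] : List (Q → Bool) :=
  (Finset.univ : Finset Q).toList.map fun p q => decide (q = p)

theorem sep_bits : Separating (bits Q) := by
  intro p q h
  have h1 := h (fun x => decide (x = p)) (List.mem_map.2 ⟨p, by simp, rfl⟩)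
  have h2 : decide (q = p) = true := by
    rw [← h1]
    simp
  exact (of_decide_eq_true h2).symm

/-- the wires of a state which depends on the configuration -/
noncomputable def W {Ω : Type} (f : Ω → Q) : List (Ω → Fin 3) :=
  refs ++ ((bits Q).map (· ∘ f)).map bit

/-- the colours of the wires of a state -/
noncomputable def blk (q : Q) : List (Fin 3) := (W (id : Q → Q)).map (· q)

theorem W_map {Ω : Type} (f : Ω → Q) (ω : Ω) : (W f).map (· ω) = blk (f ω) := by
  unfold W blk W
  rw [List.map_append, List.map_append, map_refs, map_refs]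
  congr 1
  rw [List.map_map, List.map_map, List.map_map, List.map_map]
  rfl

theorem length_W {Ω : Type} (f : Ω → Q) : (W f).length = 3 + (bits Q).length := by
  unfold W
  rw [List.length_append, List.length_map, List.length_map, length_refs]

theorem length_blk (q : Q) : (blk q).length = 3 + (bits Q).length := by
  unfold blk
  rw [List.length_map, length_W]

end code

/-! ### The tiles -/

section tiles

variable {Q : Type} [Fintype Q] [DecidableEq Q]
variable (hUNI : UniStmt) (hCON : ConStmt) (hTCO : TcoStmt) (hTCX : TcxStmt) (hTPE : TpeStmt)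

include hUNI hTCO in
/-- the first tile -/
theorem tr_start (q₀ : Q) :
    Tr (id : Unit → Unit) [cw 1, cw 1, cw 0] (W (fun _ : Unit => q₀)) := by
  have h1 : Tr (id : Unit → Unit) [cw 1, cw 1, cw 0] refs := by
    refine ⟨[.vtx 1 2 2], fun k hk => by simp at hk, ⟨by norm_num, by norm_num, by simp,
      by simp, rfl⟩, fun F _ l r ω => ?_⟩
    rw [Fintype.sum_unique, if_pos (Subsingleton.elim _ _), map_refs]
    show app [.vtx (1 + l.length) 2 2] F (l ++ ([1, 1, 0] ++ r)) = _
    have e1 : (l ++ ([1, 1, 0] ++ r)).take (1 + l.length) = l ++ [1] := by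
      rw [add_comm, List.take_append, List.take_of_length_le (by omega)]
      simp
    have e2 : (l ++ ([1, 1, 0] ++ r)).drop (1 + l.length) = 1 :: 0 :: r := by
      rw [add_comm, List.drop_append, List.drop_of_length_le (by omega)]
      simp
    have e3 : (l ++ ([1, 1, 0] ++ r)).drop (1 + l.length + 2) = r := by
      rw [← List.drop_drop, e2]
      rfl
    unfold app
    rw [e1, e2, e3]
    simp only [List.take_succ_cons, List.take_zero]
    rw [Fin.sum_univ_three]
    rw [if_pos (by simp), if_pos (by simp), if_neg (by simp)]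
    rw [zero_add, zero_add]
    unfold app
    congr 1
    simp
  have h2 : Tr (id : Unit → Unit) (refs ++ ([] : List (Unit → Bool)).map bit)
      (refs ++ ((bits Q).map (· ∘ fun _ : Unit => q₀)).map bit) :=
    hUNI Unit Unit id [] _ (fun _ _ _ => rfl)
  rw [List.map_nil, List.append_nil] at h2
  exact comp_id hTCO h1 h2

include hUNI hCON hTCO hTCX hTPE in
/-- a network which outputs a state twice -/
theorem tr_two {Ω Ω' : Type} [Fintype Ω] [DecidableEq Ω] [Fintype Ω'] [DecidableEq Ω']
    (π : Ω' → Ω) (X : List (Ω → Bool)) (hX : Separating X) (f : Ω' → Q) :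
    Tr π (refs ++ X.map bit) (W f ++ W f) := by
  have h1 : Tr π (refs ++ X.map bit)
      (refs ++ (((bits Q).map (· ∘ f)) ++ ((bits Q).map (· ∘ f))).map bit) :=
    hUNI Ω Ω' π X _ hX
  rw [List.map_append] at h1
  exact hTCO Ω Ω' Ω' π id _ _ _ h1 (two_blocks hCON hTCO hTCX hTPE _ _).2

include hUNI hCON hTCO hTCX hTPE in
/-- tiles of the first row -/
theorem tr_row (R : Q → Q → Prop) [DecidablePred fun p : Q × Q => R p.1 p.2] :
    Tr (fun p : {p : Q × Q // R p.1 p.2} => p.1.1) (W (id : Q → Q))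
      (W (fun p : {p : Q × Q // R p.1 p.2} => p.1.2) ++
        W (fun p : {p : Q × Q // R p.1 p.2} => p.1.2)) := by
  refine tr_two hUNI hCON hTCO hTCX hTPE _ _ ?_ _
  have h : (bits Q).map (· ∘ (id : Q → Q)) = bits Q := List.map_id _
  rw [h]
  exact sep_bits

include hUNI hCON hTCO hTCX hTPE in
/-- the regular tile -/
theorem tr_reg (nx : Q → Q → Q) :
    Tr (id : Q × Q → Q × Q) (W (Prod.fst : Q × Q → Q) ++ W (Prod.snd : Q × Q → Q))
      (W (fun p : Q × Q => nx p.1 p.2) ++ W (fun p : Q × Q => nx p.1 p.2)) := by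
  have h1 := (two_blocks hCON hTCO hTCX hTPE (Ω := Q × Q)
    (((bits Q).map (· ∘ (Prod.fst : Q × Q → Q))).map bit)
    (((bits Q).map (· ∘ (Prod.snd : Q × Q → Q))).map bit)).1
  rw [← List.map_append] at h1
  refine comp_id hTCO h1 (tr_two hUNI hCON hTCO hTCX hTPE _ _ ?_ _)
  intro p q h
  refine Prod.ext ?_ ?_
  · refine sep_bits _ _ fun x hx => ?_
    exact h _ (List.mem_append_left _ (List.mem_map_of_mem hx))
  · refine sep_bits _ _ fun x hx => ?_
    exact h _ (List.mem_append_right _ (List.mem_map_of_mem hx))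

include hUNI in
/-- the last tile -/
theorem tr_fin (P : Q → Prop) [DecidablePred P] :
    Tr (Subtype.val : {q // P q} → Q) (W (id : Q → Q)) (refs : List ({q // P q} → Fin 3)) := by
  have h : (bits Q).map (· ∘ (id : Q → Q)) = bits Q := List.map_id _
  have h1 := hUNI Q {q // P q} Subtype.val (bits Q) [] sep_bits
  rw [List.map_nil, List.append_nil] at h1
  unfold W
  rw [h]
  exact h1

include hUNI hCON hTCO hTCX in
/-- deletion of a state -/
theorem tr_drop : Tr (id : Q → Q) (refs ++ W (id : Q → Q)) (refs : List (Q → Fin 3)) := by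
  have h : (bits Q).map (· ∘ (id : Q → Q)) = bits Q := List.map_id _
  have h1 := hUNI Q Q id (bits Q) [] sep_bits
  rw [List.map_nil, List.append_nil] at h1
  unfold W
  rw [h]
  exact comp_id hTCO (two_refs hCON hTCX _).1 h1

end tiles

theorem sum_row {Q : Type} [Fintype Q] [DecidableEq Q] (R : Q → Q → Prop)
    [DecidablePred fun p : Q × Q => R p.1 p.2] [∀ s, DecidablePred (R s)] (s : Q)
    (f : Q → ZMod 2) :
    (∑ p : {p : Q × Q // R p.1 p.2}, if p.1.1 = s then f p.1.2 else 0) =
      ∑ t, if R s t then f t else 0 := by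
  rw [← Finset.sum_subtype (Finset.univ.filter fun p : Q × Q => R p.1 p.2) (by simp)
    (fun p : Q × Q => if p.1 = s then f p.2 else 0), Finset.sum_filter, Fintype.sum_prod_type,
    Finset.sum_comm]
  refine Finset.sum_congr rfl fun t _ => ?_
  rw [Finset.sum_eq_single s]
  · simp only [if_true]
  · intro x _ hx
    simp [hx]
  · intro h
    exact absurd (Finset.mem_univ _) h

theorem sum_acc {Q : Type} [Fintype Q] [DecidableEq Q] (P : Q → Prop)
    [DecidablePred P] (s : Q) (c : ZMod 2) :
    (∑ p : {p : Q // P p}, if p.1 = s then c else 0) = if P s then c else 0 := by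
  rw [← Finset.sum_subtype (Finset.univ.filter fun p : Q => P p) (by simp)
    (fun p : Q => if p = s then c else 0), Finset.sum_filter]
  rw [Finset.sum_eq_single s]
  · simp only [if_true]
  · intro x _ hx
    simp [hx]
  · intro h
    exact absurd (Finset.mem_univ _) h

open Classical in
/-- **TIL** -/
theorem til (hUNI : UniStmt) (hCON : ConStmt) (hTCO : TcoStmt) (hTCX : TcxStmt) (hTPE : TpeStmt)
    (hNOR : NorStmt) : TilStmt := by
  intro A _ H
  let _ : Fintype H.Q := H.fin
  have e2 : ∀ {Ω : Type} (f : Ω → H.Q), 2 ≤ (W f).length := fun f => by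
    rw [length_W]; omega
  have hWW : ∀ {Ω : Type} (f g : Ω → H.Q), (W f ++ W g).length = 2 * (3 + (bits H.Q).length) :=
    fun f g => by rw [List.length_append, length_W, length_W]; ring
  obtain ⟨js, start, hs, hs'⟩ := nn1 hNOR (tr_start hUNI hTCO H.init) (by simp) (e2 _)
  obtain ⟨jf, fin, hf, hf'⟩ := nn1 hNOR (tr_fin hUNI H.acc) (e2 _) (by simp [length_refs])
  obtain ⟨jd, drop, hd, hd'⟩ := nn1 hNOR (tr_drop hUNI hCON hTCO hTCX (Q := H.Q))
    (by rw [List.length_append, length_refs]; omega) (by simp [length_refs])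
  have hrow : ∀ a, ∃ J₀, ∀ J, J₀ ≤ J → Even J → ∃ w,
      NN (fun p : {p : H.Q × H.Q // H.row a p.1 p.2} => p.1.1) (W (id : H.Q → H.Q))
        (W (fun p : {p : H.Q × H.Q // H.row a p.1 p.2} => p.1.2) ++
        W (fun p : {p : H.Q × H.Q // H.row a p.1 p.2} => p.1.2)) J w := fun a =>
    nn hNOR (tr_row hUNI hCON hTCO hTCX hTPE (H.row a)) (e2 _) (by rw [hWW]; omega)
  choose J₀ hJ₀ using hrow
  obtain ⟨J₁, hJ₁⟩ := nn hNOR (tr_reg hUNI hCON hTCO hTCX hTPE H.next) (by rw [hWW]; omega)
    (by rw [hWW]; omega)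
  set J : ℕ := 2 * (∑ a, J₀ a + J₁) with hJ
  have hJe : Even J := even_two_mul _
  have hle : ∀ a, J₀ a ≤ J := fun a => by
    have : J₀ a ≤ ∑ a, J₀ a := Finset.single_le_sum (f := J₀) (fun _ _ => Nat.zero_le _)
      (Finset.mem_univ a)
    omega
  have hr := fun a => hJ₀ a J (hle a) hJe
  choose row hr hr' using hr
  obtain ⟨reg, hg, hg'⟩ := hJ₁ J (by omega) hJe
  refine ⟨⟨3 + (bits H.Q).length, start, row, reg, fin, drop, js, J, jf, jd⟩,
    ⟨by show 2 ≤ 3 + (bits H.Q).length; omega, ?_, fun a => ?_, ?_, ?_, ?_⟩,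
    blk, length_blk, fun F hF l r => ⟨?_, fun a s => ?_, fun s t => ?_, fun s => ?_,
      fun s => ?_⟩⟩
  · rw [length_W] at hs
    exact hs
  · have := hr a
    rw [length_W, hWW] at this
    exact this
  · rw [hWW, hWW] at hg
    exact hg
  · rw [length_W, length_refs] at hf
    exact hf
  · rw [List.length_append, length_W, length_refs] at hd
    exact hd
  · have := hs' F hF l r ()
    rw [Fintype.sum_unique, if_pos (Subsingleton.elim _ _), W_map] at this
    exact this
  · have := hr' a F hF l r s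
    rw [W_map] at this
    refine this.trans ?_
    simp only [List.map_append, W_map, List.append_assoc]
    exact sum_row (H.row a) s fun t => F (l ++ (blk t ++ (blk t ++ r)))
  · have := hg' F hF l r (s, t)
    simp only [List.map_append, W_map, List.append_assoc, id_eq] at this
    rw [Finset.sum_ite_eq' Finset.univ (s, t)] at this
    rw [this, if_pos (Finset.mem_univ _)]
  · have := hf' F hF l r s
    rw [W_map] at this
    refine this.trans ?_
    exact sum_acc H.acc s (F (l ++ ([1, 2, 2] ++ r)))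
  · have := hd' F hF l r s
    simp only [List.map_append, W_map, List.append_assoc, id_eq, map_refs] at this
    rw [Finset.sum_ite_eq' Finset.univ s] at this
    rw [this, if_pos (Finset.mem_univ _)]

end Pool.Agent.HAM.H4
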