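import Pool.Agent.Helper4_HAM.Cond

/-!
# Module VER: the verifier for Hamiltonian cycles
-/

namespace Pool.Agent.HAM.H4

open Pool.Agent.Helper53_CookLevin Pool.Agent.Helper53_Chan Pool.Agent.Helper32_Poly
open Pool.Agent.Helper32_HCK (DecisionProblem)
open Turing Computability

section tests

variable {C : Type} [DecidableEq C] [Inhabited C] {e v t : C}

theorem test_num {m : ℕ} {F X : (Fin m → List C) → List C} {n : (Fin m → List C) → ℕ}
    (hF : PGen m F) (hX : PGen m X) (hn : ∀ ρ, (X ρ).length = n ρ) :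
    Test m (fun ρ => NumP v t (F ρ) (n ρ)) := by
  refine Test.exSp v (PGen.append hF (PGen.const [v]))
    (K := fun p ρ => p ≠ [] ∧ tr t p = n ρ) ?_
  refine Test.and (Test.not (Test.empty (PGen.var 0))) ?_
  refine Test.congr (Test.lenEq (gval t (PGen.var (0 : Fin (m + 1)))) (PGen.rename Fin.succ hX))
    (fun ρ => ?_)
  rw [List.length_replicate, hn]

theorem test_edge {m : ℕ} {F X Y : (Fin m → List C) → List C} {a b : (Fin m → List C) → ℕ}
    (hF : PGen m F) (hX : PGen m X) (hY : PGen m Y) (ha : ∀ ρ, (X ρ).length = a ρ)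
    (hb : ∀ ρ, (Y ρ).length = b ρ) :
    Test m (fun ρ => EdgeP e t (F ρ) (a ρ) (b ρ)) := by
  refine Test.exSp e (PGen.append hF (PGen.const [e]))
    (K := fun p ρ => p ≠ [] ∧ tr t p = b ρ ∧ tr t (prev t p) = a ρ) ?_
  refine Test.and (Test.not (Test.empty (PGen.var 0))) (Test.and ?_ ?_)
  · refine Test.congr (Test.lenEq (gval t (PGen.var (0 : Fin (m + 1)))) (PGen.rename Fin.succ hY))
      (fun ρ => ?_)
    rw [List.length_replicate, hb]
  · refine Test.congr (Test.lenEq (gval t (gprev t (PGen.var (0 : Fin (m + 1)))))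
      (PGen.rename Fin.succ hX)) (fun ρ => ?_)
    rw [List.length_replicate, ha]

theorem test_true {m : ℕ} : Test m (fun _ : Fin m → List C => True) :=
  ⟨fun _ => [], PGen.const [], fun _ => by simp⟩

theorem test_cond {m : ℕ} {A B : (Fin m → List C) → List C} (hA : PGen m A) (hB : PGen m B) :
    Test m (fun ρ => Cond e v t (A ρ) (B ρ)) := by
  have hA' : PGen m (fun ρ => rmE e (A ρ)) := PGen.flatMapG _ hA
  have sA : PGen (m + 1) (fun ρ => A (ρ ∘ Fin.succ)) := PGen.rename Fin.succ hA
  have sB : PGen (m + 1) (fun ρ => B (ρ ∘ Fin.succ)) := PGen.rename Fin.succ hB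
  have sA' : PGen (m + 1) (fun ρ => rmE e (A (ρ ∘ Fin.succ))) := PGen.rename Fin.succ hA'
  have x0 : PGen (m + 1) (fun ρ : Fin (m + 1) → List C => ρ 0) := PGen.var 0
  have x1 := gprev t x0
  have x2 := gprev t x1
  have n0 := gval t x0
  have n1 := gval t x1
  have hne : Test (m + 1) (fun ρ : Fin (m + 1) → List C => ρ 0 ≠ []) :=
    Test.not (Test.empty x0)
  have hBv := PGen.append hB (PGen.const [v])
  have t1 : Test m (fun ρ => ∀ p, Sp e (B ρ) p → False) :=
    Test.allSp e hB (K := fun _ _ => False)
      (Test.congr (Test.not test_true) (fun _ => by simp))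
  have t2 : Test m (fun ρ => ∀ p, Sp t (B ρ) p → p ≠ []) :=
    Test.allSp t hB (K := fun p _ => p ≠ []) hne
  have t3 : Test m (fun ρ => ∃ p, Sp v (B ρ ++ [v]) p ∧ (p ≠ [] ∧ tr t p = 0 ∧ prev t p = [])) :=
    Test.exSp v hBv (K := fun p _ => p ≠ [] ∧ tr t p = 0 ∧ prev t p = [])
      (Test.and hne (Test.and (Test.congr (Test.empty n0) (fun ρ => by
        rw [List.replicate_eq_nil_iff])) (Test.empty x1)))
  have t4 : Test m (fun ρ => ∃ p, Sp v (B ρ ++ [v]) p ∧
      (p ≠ [] ∧ prev t p ≠ [] ∧ prev t (prev t p) = [] ∧ tr t p < tr t (B ρ))) :=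
    Test.exSp v hBv (K := fun p ρ => p ≠ [] ∧ prev t p ≠ [] ∧ prev t (prev t p) = [] ∧
        tr t p < tr t (B ρ))
      (Test.and hne (Test.and (Test.not (Test.empty x1)) (Test.and (Test.empty x2)
        (Test.congr (Test.not (Test.lenLe (gval t sB) n0)) (fun ρ => by
          rw [List.length_replicate, List.length_replicate, not_le])))))
  have t5 : Test m (fun ρ => ∀ p, Sp v (B ρ ++ [v]) p → p ≠ [] →
      ¬ NumP v t (prev t p) (tr t p)) :=
    Test.allSp v hBv (K := fun p _ => p ≠ [] → ¬ NumP v t (prev t p) (tr t p))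
      (Test.imp hne (Test.not (test_num x1 n0 (fun ρ => List.length_replicate))))
  have t6 : Test m (fun ρ => ∀ p, Sp v (B ρ ++ [v]) p → p ≠ [] → prev t p ≠ [] →
      EdgeP e t (A ρ) (tr t (prev t p)) (tr t p) ∨
      EdgeP e t (A ρ) (tr t p) (tr t (prev t p))) :=
    Test.allSp v hBv (K := fun p ρ => p ≠ [] → prev t p ≠ [] →
      EdgeP e t (A ρ) (tr t (prev t p)) (tr t p) ∨
      EdgeP e t (A ρ) (tr t p) (tr t (prev t p)))
      (Test.imp hne (Test.imp (Test.not (Test.empty x1)) (Test.or
        (test_edge sA n1 n0 (fun ρ => List.length_replicate) (fun ρ => List.length_replicate))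
        (test_edge sA n0 n1 (fun ρ => List.length_replicate)
          (fun ρ => List.length_replicate)))))
  have t7 : Test m (fun ρ => EdgeP e t (A ρ) (tr t (B ρ)) 0 ∨ EdgeP e t (A ρ) 0 (tr t (B ρ))) :=
    Test.or (test_edge hA (gval t hB) (PGen.const []) (fun ρ => List.length_replicate)
      (fun ρ => rfl)) (test_edge hA (PGen.const []) (gval t hB) (fun ρ => rfl)
      (fun ρ => List.length_replicate))
  have t8 : Test m (fun ρ => ∀ p, Sp v (rmE e (A ρ) ++ [v]) p → p ≠ [] →
      NumP v t (B ρ) (tr t p)) :=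
    Test.allSp v (PGen.append hA' (PGen.const [v])) (K := fun p ρ => p ≠ [] →
      NumP v t (B ρ) (tr t p))
      (Test.imp hne (test_num sB n0 (fun ρ => List.length_replicate)))
  have t9 : Test m (fun ρ => ∀ p, Sp v (B ρ ++ [v]) p → p ≠ [] →
      NumP v t (rmE e (A ρ)) (tr t p)) :=
    Test.allSp v hBv (K := fun p ρ => p ≠ [] → NumP v t (rmE e (A ρ)) (tr t p))
      (Test.imp hne (test_num sA' n0 (fun ρ => List.length_replicate)))
  exact Test.and t1 (Test.and t2 (Test.and t3 (Test.and t4 (Test.and t5 (Test.and t6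
    (Test.and t7 (Test.and t8 t9)))))))

end tests

/-- the working alphabet -/
abbrev W2 : Type := GLetter ⊕ GLetter

instance : Inhabited W2 := ⟨.inl .edge⟩

/-- the first part of the input -/
def partA (w : List W2) : List W2 := w.flatMap (Sum.elim (fun x => [.inl x]) (fun _ => []))

/-- the second part of the input -/
def partB (w : List W2) : List W2 := w.flatMap (Sum.elim (fun _ => []) (fun x => [.inl x]))

theorem partA_eq (a b : List GLetter) : partA (a.map .inl ++ b.map .inr) = a.map .inl := by
  unfold partA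
  rw [List.flatMap_append, List.flatMap_map, List.flatMap_map]
  have h1 : (b.flatMap fun x => Sum.elim (fun x => [(.inl x : W2)]) (fun _ : GLetter => [])
      (.inr x)) = [] := by
    rw [List.flatMap_eq_nil_iff]
    intro x _
    rfl
  rw [h1, List.append_nil]
  induction a with
  | nil => rfl
  | cons x a ih => rw [List.flatMap_cons, ih]; rfl

theorem partB_eq (a b : List GLetter) : partB (a.map .inl ++ b.map .inr) = b.map .inl := by
  unfold partB
  rw [List.flatMap_append, List.flatMap_map, List.flatMap_map]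
  have h1 : (a.flatMap fun x => Sum.elim (fun _ => []) (fun x : GLetter => [(.inl x : W2)])
      (.inl x)) = [] := by
    rw [List.flatMap_eq_nil_iff]
    intro x _
    rfl
  rw [h1, List.nil_append]
  induction b with
  | nil => rfl
  | cons x b ih => rw [List.flatMap_cons, ih]; rfl

theorem map_edges (l : List (ℕ × ℕ)) :
    (encodeEdges l).map (.inl : GLetter → W2) = eE (.inl .edge) (.inl .vertex) (.inl .tick) l := by
  unfold encodeEdges eE bl
  rw [List.map_flatMap]
  simp only [List.map_append, List.map_cons, List.map_replicate, List.cons_append]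

theorem map_seq (s : List ℕ) :
    (encSeq s).map (.inl : GLetter → W2) = eS (.inl .vertex) (.inl .tick) s := by
  unfold encSeq eS bl
  rw [List.map_flatMap]
  simp only [List.map_cons, List.map_replicate]

/-- the condition for words -/
def Acc (w : List W2) : Prop :=
  Cond (.inl .edge : W2) (.inl .vertex) (.inl .tick) (partA w) (partB w)

theorem acc_iff (l : List (ℕ × ℕ)) (c : List GLetter) :
    Acc ((encodeEdges l).map .inl ++ c.map .inr) ↔ ∃ s, c = encSeq s ∧ IsHamSeq l s := by
  unfold Acc
  rw [partA_eq, partB_eq, map_edges]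
  rw [cond_iff (by simp) (by simp) (by simp) l _ (by
    intro x hx
    obtain ⟨y, -, rfl⟩ := List.mem_map.1 hx
    cases y <;> simp)]
  constructor
  · rintro ⟨s, hs, h⟩
    rw [← map_seq] at hs
    exact ⟨s, List.map_injective_iff.2 Sum.inl_injective hs, h⟩
  · rintro ⟨s, rfl, h⟩
    exact ⟨s, map_seq s, h⟩

open Classical in
/-- the verifier on words -/
noncomputable def vout (ρ : Fin 1 → List W2) : List W2 :=
  if Acc (ρ 0) then [.inl .edge] else [.inl .tick]

theorem gen_vout : PGen 1 vout := by
  classical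
  have hA : PGen 1 (fun ρ : Fin 1 → List W2 => partA (ρ 0)) := PGen.flatMapG _ (PGen.var 0)
  have hB : PGen 1 (fun ρ : Fin 1 → List W2 => partB (ρ 0)) := PGen.flatMapG _ (PGen.var 0)
  have h : Test 1 (fun ρ : Fin 1 → List W2 => Acc (ρ 0)) := test_cond hA hB
  exact Test.ite h (PGen.const _) (PGen.const _)

/-- letters to bits -/
def toBit : W2 → List Bool
  | .inl .edge => [true]
  | _ => [false]

/-- the encoding of pairs as words over the working alphabet -/
noncomputable def pairEnc (k : ℕ) : (barnette k).Inst × List GLetter → List W2 := (barnette k).encPair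

theorem flatMap_self {α : Type} (l : List α) : (l.flatMap fun b => [b]) = l := by
  induction l with
  | nil => rfl
  | cons x l ih => rw [List.flatMap_cons, ih]; rfl

theorem ver : VerStmt := by
  classical
  intro k
  have c1 : TM2ComputableInPolyTime (pairEnc k) (id : List W2 → List W2) (pairEnc k) :=
    morphComputable _ id _ [] (fun b => [b]) (fun n => by
      rw [List.nil_append, flatMap_self]
      rfl)
  obtain ⟨c2⟩ := pgen_computable _ gen_vout
  have c3 : TM2ComputableInPolyTime (id : List W2 → List W2) (id : List Bool → List Bool)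
      (fun w => w.flatMap toBit) :=
    morphComputable id id _ [] toBit (fun w => by
      rw [List.nil_append]
      rfl)
  obtain ⟨c4⟩ := TM2ComputableInPolyTime.comp c1 c2
  obtain ⟨c5⟩ := TM2ComputableInPolyTime.comp c4 c3
  refine ⟨⟨c5.toTM2ComputableAux, c5.time, fun x => ?_⟩⟩
  have h := c5.outputsFun x
  have e : (id : List Bool → List Bool) (((fun w : List W2 => w.flatMap toBit) ∘
      ((fun w : List W2 => vout ![w]) ∘ pairEnc k)) x) =
      encodeBool (decide (∃ s, x.2 = encSeq s ∧ IsHamSeq x.1.1 s)) := by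
    show (vout ![(barnette k).encPair x]).flatMap toBit = _
    have h1 : Acc ((barnette k).encPair x) ↔ ∃ s, x.2 = encSeq s ∧ IsHamSeq x.1.1 s :=
      acc_iff x.1.1 x.2
    unfold vout
    rw [Matrix.cons_val_zero]
    by_cases hx : Acc ((barnette k).encPair x)
    · rw [if_pos hx, decide_eq_true (h1.1 hx)]
      rfl
    · rw [if_neg hx, decide_eq_false (fun h' => hx (h1.2 h'))]
      rfl
  rw [e] at h
  exact h

end Pool.Agent.HAM.H4
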