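import Pool.Agent.Helper4_HAM.Gen

/-!
# The conditions checked by the verifier
-/

namespace Pool.Agent.HAM.H4

open Pool.Agent.Helper53_CookLevin Pool.Agent.Helper53_Chan

/-! ### lists of numbers -/

theorem all_dec {K : ℕ → Prop} (s : List ℕ) :
    (∀ s₁ a s₂, s = s₁ ++ a :: s₂ → K a) ↔ ∀ a ∈ s, K a := by
  constructor
  · intro h a ha
    obtain ⟨s₁, s₂, hs⟩ := List.append_of_mem ha
    exact h s₁ a s₂ hs
  · rintro h s₁ a s₂ rfl
    exact h a (by simp)

theorem nodup_dec (s : List ℕ) : (∀ s₁ a s₂, s = s₁ ++ a :: s₂ → a ∉ s₁) ↔ s.Nodup := by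
  constructor
  · induction s using List.reverseRecOn with
    | nil => intro _; exact List.nodup_nil
    | append_singleton s a ih =>
      intro h
      have h1 : s.Nodup := ih (fun s₁ b s₂ hs => h s₁ b (s₂ ++ [a]) (by rw [hs]; simp))
      have h2 : a ∉ s := h s a [] rfl
      rw [List.nodup_append]
      refine ⟨h1, List.nodup_singleton a, ?_⟩
      intro x hx y hy hxy
      rw [List.mem_singleton] at hy
      exact h2 (hy ▸ hxy ▸ hx)
  · rintro h s₁ a s₂ rfl hm
    rw [List.nodup_append] at h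
    exact h.2.2 a hm a List.mem_cons_self rfl

theorem zip_dec {Q : ℕ × ℕ → Prop} (c : ℕ) : ∀ (s : List ℕ) (a : ℕ),
    (∀ p ∈ (a :: s).zip (s ++ [c]), Q p) ↔
      (∀ s₁ x y s₂, a :: s = s₁ ++ x :: y :: s₂ → Q (x, y)) ∧ Q ((a :: s).getLastD 0, c)
  | [], a => by
    constructor
    · intro h
      refine ⟨?_, h _ (by simp)⟩
      intro s₁ x y s₂ hs
      have := congrArg List.length hs
      simp at this
      omega
    · rintro ⟨-, h⟩ p hp
      simp at hp
      rw [hp]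
      exact h
  | b :: s, a => by
    have ih := zip_dec (Q := Q) c s b
    have e : (a :: b :: s).zip (b :: s ++ [c]) = (a, b) :: (b :: s).zip (s ++ [c]) := rfl
    have e2 : (a :: b :: s).getLastD 0 = (b :: s).getLastD 0 := by simp
    rw [e, e2, List.forall_mem_cons, ih]
    constructor
    · rintro ⟨h1, h2, h3⟩
      refine ⟨?_, h3⟩
      intro s₁ x y s₂ hs
      rcases s₁ with _ | ⟨d, s₁⟩
      · rw [List.nil_append, List.cons.injEq, List.cons.injEq] at hs
        rw [← hs.1, ← hs.2.1]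
        exact h1
      · rw [List.cons_append, List.cons.injEq] at hs
        exact h2 s₁ x y s₂ hs.2
    · rintro ⟨h1, h2⟩
      exact ⟨h1 [] a b s rfl, fun s₁ x y s₂ hs => h1 (a :: s₁) x y s₂ (by rw [hs]; rfl), h2⟩

theorem cpairs_dec {Q : ℕ × ℕ → Prop} (s : List ℕ) :
    (∀ p ∈ cpairs (0 :: s), Q p) ↔
      (∀ s₁ x y s₂, 0 :: s = s₁ ++ x :: y :: s₂ → Q (x, y)) ∧ Q ((0 :: s).getLastD 0, 0) := by
  rw [← zip_dec (Q := Q) 0 s 0]
  unfold cpairs
  rw [show (0 :: s).rotate 1 = s ++ [0] by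
    rw [List.rotate_cons_succ, List.rotate_zero]]

/-! ### the condition -/

section core

variable {C : Type} [DecidableEq C] (e v t : C)

/-- a sequence of numbers -/
def eS (s : List ℕ) : List C := bl v (fun n => List.replicate n t) s

/-- a list of edges -/
def eE (l : List (ℕ × ℕ)) : List C :=
  bl e (fun p => v :: List.replicate p.1 t ++ v :: List.replicate p.2 t) l

/-- the number `n` occurs in `w` -/
def NumP (w : List C) (n : ℕ) : Prop := ∃ p, Sp v (w ++ [v]) p ∧ (p ≠ [] ∧ tr t p = n)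

/-- the edge `(a, b)` occurs in `w` -/
def EdgeP (w : List C) (a b : ℕ) : Prop :=
  ∃ u, Sp e (w ++ [e]) u ∧ (u ≠ [] ∧ tr t u = b ∧ tr t (prev t u) = a)

/-- without the letter `e` -/
def rmE (w : List C) : List C := w.flatMap fun c => if c = e then [] else [c]

/-- The condition checked by the verifier. -/
def Cond (A B : List C) : Prop :=
  (∀ p, Sp e B p → False) ∧ (∀ p, Sp t B p → p ≠ []) ∧
  (∃ p, Sp v (B ++ [v]) p ∧ (p ≠ [] ∧ tr t p = 0 ∧ prev t p = [])) ∧
  (∃ p, Sp v (B ++ [v]) p ∧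
    (p ≠ [] ∧ prev t p ≠ [] ∧ prev t (prev t p) = [] ∧ tr t p < tr t B)) ∧
  (∀ p, Sp v (B ++ [v]) p → p ≠ [] → ¬ NumP v t (prev t p) (tr t p)) ∧
  (∀ p, Sp v (B ++ [v]) p → p ≠ [] → prev t p ≠ [] →
    EdgeP e t A (tr t (prev t p)) (tr t p) ∨ EdgeP e t A (tr t p) (tr t (prev t p))) ∧
  (EdgeP e t A (tr t B) 0 ∨ EdgeP e t A 0 (tr t B)) ∧
  (∀ p, Sp v (rmE e A ++ [v]) p → p ≠ [] → NumP v t B (tr t p)) ∧
  (∀ p, Sp v (B ++ [v]) p → p ≠ [] → NumP v t (rmE e A) (tr t p))

variable {e v t}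

omit [DecidableEq C] in
theorem eS_snoc (s : List ℕ) (a : ℕ) :
    eS v t (s ++ [a]) = eS v t s ++ v :: List.replicate a t := bl_snoc _ _ _ _

omit [DecidableEq C] in
theorem eS_nil_iff (s : List ℕ) : eS v t s = [] ↔ s = [] := bl_eq_nil _ _ _

theorem all_sp (hv : v ≠ t) {K : List C → Prop} (s : List ℕ) :
    (∀ p, Sp v (eS v t s ++ [v]) p → p ≠ [] → K p) ↔
      ∀ s₁ a s₂, s = s₁ ++ a :: s₂ → K (eS v t s₁ ++ v :: List.replicate a t) := by
  have hb : ∀ a : ℕ, v ∉ List.replicate a t := fun a h => hv (List.eq_of_mem_replicate h)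
  constructor
  · rintro h s₁ a s₂ rfl
    rw [← eS_snoc]
    exact h _ ((sp_bl hb _ _).2 ⟨s₁ ++ [a], s₂, by simp, rfl⟩) (by
      rw [ne_eq, eS_nil_iff]
      simp)
  · intro h p hp hne
    obtain ⟨s₁, s₂, rfl, rfl⟩ := (sp_bl hb _ _).1 hp
    rcases List.eq_nil_or_concat s₁ with rfl | ⟨s₁, a, rfl⟩
    · exact absurd rfl hne
    · rw [List.concat_eq_append]
      have := h s₁ a s₂ (by simp)
      rw [← eS_snoc] at this
      exact this

theorem ex_sp (hv : v ≠ t) {K : List C → Prop} (s : List ℕ) :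
    (∃ p, Sp v (eS v t s ++ [v]) p ∧ (p ≠ [] ∧ K p)) ↔
      ∃ s₁ a s₂, s = s₁ ++ a :: s₂ ∧ K (eS v t s₁ ++ v :: List.replicate a t) := by
  have h := all_sp hv (K := fun p => ¬ K p) s
  have h' := not_congr h
  simp only [not_forall, not_not, exists_prop] at h'
  exact h'

theorem numP_iff (hv : v ≠ t) (s : List ℕ) (n : ℕ) : NumP v t (eS v t s) n ↔ n ∈ s := by
  unfold NumP
  rw [ex_sp hv]
  constructor
  · rintro ⟨s₁, a, s₂, rfl, h⟩
    rw [tr_num hv] at h
    rw [← h]
    simp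
  · intro h
    obtain ⟨s₁, s₂, rfl⟩ := List.append_of_mem h
    exact ⟨s₁, n, s₂, rfl, tr_num hv _ _⟩

theorem tr_eS (hv : v ≠ t) (s : List ℕ) : tr t (eS v t s) = s.getLastD 0 := by
  rcases List.eq_nil_or_concat s with rfl | ⟨s₁, a, rfl⟩
  · rfl
  · rw [List.concat_eq_append, eS_snoc, tr_num hv]
    simp

theorem edgeP_iff (hev : e ≠ v) (het : e ≠ t) (hv : v ≠ t) (l : List (ℕ × ℕ)) (a b : ℕ) :
    EdgeP e t (eE e v t l) a b ↔ (a, b) ∈ l := by
  have hb : ∀ p : ℕ × ℕ, e ∉ (v :: List.replicate p.1 t ++ v :: List.replicate p.2 t) := by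
    intro p h
    simp only [List.mem_append, List.mem_cons, List.mem_replicate] at h
    tauto
  have key : ∀ (l₁ : List (ℕ × ℕ)) (p : ℕ × ℕ),
      tr t (bl e (fun p => v :: List.replicate p.1 t ++ v :: List.replicate p.2 t) (l₁ ++ [p])) =
        p.2 ∧
      tr t (prev t (bl e (fun p => v :: List.replicate p.1 t ++ v :: List.replicate p.2 t)
        (l₁ ++ [p]))) = p.1 := by
    intro l₁ p
    have e1 : bl e (fun p => v :: List.replicate p.1 t ++ v :: List.replicate p.2 t) (l₁ ++ [p]) =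
        ((bl e (fun p => v :: List.replicate p.1 t ++ v :: List.replicate p.2 t) l₁ ++ [e]) ++
          v :: List.replicate p.1 t) ++ v :: List.replicate p.2 t := by
      rw [bl_snoc]
      simp
    rw [e1, tr_num hv, prev_num hv, tr_num hv]
    exact ⟨rfl, rfl⟩
  unfold EdgeP eE
  constructor
  · rintro ⟨u, hu, hne, h1, h2⟩
    obtain ⟨l₁, l₂, rfl, rfl⟩ := (sp_bl hb _ _).1 hu
    rcases List.eq_nil_or_concat l₁ with rfl | ⟨l₁, p, rfl⟩
    · exact absurd rfl hne
    · rw [List.concat_eq_append] at h1 h2 ⊢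
      obtain ⟨h3, h4⟩ := key l₁ p
      rw [h3] at h1
      rw [h4] at h2
      rw [← h1, ← h2]
      simp
  · intro h
    obtain ⟨l₁, l₂, rfl⟩ := List.append_of_mem h
    obtain ⟨h3, h4⟩ := key l₁ (a, b)
    refine ⟨_, (sp_bl hb _ _).2 ⟨l₁ ++ [(a, b)], l₂, by simp, rfl⟩, ?_, h3, h4⟩
    rw [ne_eq, bl_eq_nil]
    simp

theorem rmE_eE (hev : e ≠ v) (het : e ≠ t) : ∀ l : List (ℕ × ℕ),
    rmE e (eE e v t l) = eS v t (l.flatMap fun p => [p.1, p.2])
  | [] => rfl
  | p :: l => by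
    have ih := rmE_eE hev het l
    have hr : ∀ n : ℕ, (List.replicate n t).flatMap (fun c => if c = e then [] else [c]) =
        List.replicate n t := by
      intro n
      induction n with
      | zero => rfl
      | succ n ih => rw [List.replicate_succ, List.flatMap_cons, ih, if_neg (Ne.symm het)]; rfl
    have e1 : eE e v t (p :: l) = e :: (v :: (List.replicate p.1 t ++
        (v :: (List.replicate p.2 t ++ eE e v t l)))) := by
      unfold eE
      rw [bl_cons]
      simp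
    have e2 : eS v t ((p :: l).flatMap fun p => [p.1, p.2]) = v :: (List.replicate p.1 t ++
        (v :: (List.replicate p.2 t ++ eS v t (l.flatMap fun p => [p.1, p.2])))) := rfl
    rw [e1, e2, ← ih]
    unfold rmE
    rw [List.flatMap_cons, if_pos rfl, List.flatMap_cons, if_neg (Ne.symm hev),
      List.flatMap_append, hr, List.flatMap_cons, if_neg (Ne.symm hev), List.flatMap_append, hr]
    rfl

theorem occurs_iff (l : List (ℕ × ℕ)) (x : ℕ) :
    Occurs l x ↔ x ∈ l.flatMap fun p => [p.1, p.2] := by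
  unfold Occurs
  simp [List.mem_flatMap]

/-- words which encode sequences -/
theorem exists_eS (B : List C) (hB : ∀ x ∈ B, x = e ∨ x = v ∨ x = t)
    (h1 : ∀ p, Sp e B p → False) (h2 : ∀ p, Sp t B p → p ≠ []) : ∃ s, B = eS v t s := by
  induction B using List.reverseRecOn with
  | nil => exact ⟨[], rfl⟩
  | append_singleton B x ih =>
    have hsub : ∀ y p, Sp y B p → Sp y (B ++ [x]) p := by
      rintro y p ⟨q, rfl⟩
      exact ⟨q ++ [x], by simp⟩
    obtain ⟨s, rfl⟩ := ih (fun y hy => hB y (by simp [hy])) (fun p hp => h1 p (hsub _ _ hp))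
      (fun p hp => h2 p (hsub _ _ hp))
    rcases hB x (by simp) with rfl | rfl | rfl
    · exact absurd ⟨[], rfl⟩ (h1 (eS v t s))
    · exact ⟨s ++ [0], by rw [eS_snoc]; rfl⟩
    · have hne : eS v x s ≠ [] := h2 _ ⟨[], rfl⟩
      rw [ne_eq, eS_nil_iff] at hne
      rcases List.eq_nil_or_concat s with rfl | ⟨s₁, a, rfl⟩
      · exact absurd rfl hne
      · refine ⟨s₁ ++ [a + 1], ?_⟩
        rw [List.concat_eq_append, eS_snoc, eS_snoc, List.replicate_succ']
        simp

theorem cond_iff (hev : e ≠ v) (het : e ≠ t) (hv : v ≠ t) (l : List (ℕ × ℕ)) (B : List C)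
    (hB : ∀ x ∈ B, x = e ∨ x = v ∨ x = t) :
    Cond e v t (eE e v t l) B ↔ ∃ s, B = eS v t s ∧ IsHamSeq l s := by
  -- the conditions for a word which encodes a sequence
  have c1 : ∀ s p, Sp e (eS v t s) p → False := by
    rintro s p ⟨q, hq⟩
    have hm : e ∈ eS v t s := by rw [hq]; simp
    unfold eS bl at hm
    rw [List.mem_flatMap] at hm
    obtain ⟨a, -, ha⟩ := hm
    simp only [List.mem_cons, List.mem_replicate] at ha
    tauto
  have c2 : ∀ s p, Sp t (eS v t s) p → p ≠ [] := by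
    rintro s p ⟨q, hq⟩ rfl
    rcases s with _ | ⟨a, s⟩
    · simp [eS, bl] at hq
    · unfold eS at hq
      rw [bl_cons, List.nil_append, List.cons.injEq] at hq
      exact hv hq.1
  have c3 : ∀ s, (∃ p, Sp v (eS v t s ++ [v]) p ∧ (p ≠ [] ∧ tr t p = 0 ∧ prev t p = [])) ↔
      s.head? = some 0 := by
    intro s
    rw [ex_sp hv (K := fun p => tr t p = 0 ∧ prev t p = [])]
    simp only [tr_num hv, prev_num hv, eS_nil_iff]
    constructor
    · rintro ⟨s₁, a, s₂, rfl, rfl, rfl⟩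
      rfl
    · intro h
      rcases s with _ | ⟨a, s⟩
      · simp at h
      · simp only [List.head?_cons, Option.some.injEq] at h
        exact ⟨[], a, s, rfl, h, rfl⟩
  have c4 : ∀ s, s.head? = some 0 → ((∃ p, Sp v (eS v t s ++ [v]) p ∧
      (p ≠ [] ∧ prev t p ≠ [] ∧ prev t (prev t p) = [] ∧ tr t p < tr t (eS v t s))) ↔
      s.getD 1 0 < s.getLastD 0) := by
    intro s hs
    rw [ex_sp hv (K := fun p => prev t p ≠ [] ∧ prev t (prev t p) = [] ∧
      tr t p < tr t (eS v t s))]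
    simp only [tr_num hv, prev_num hv, ne_eq, eS_nil_iff, tr_eS hv]
    constructor
    · rintro ⟨s₁, a, s₂, hs', h1, h2, h3⟩
      rcases List.eq_nil_or_concat s₁ with rfl | ⟨s₁, b, rfl⟩
      · exact absurd rfl h1
      · rw [List.concat_eq_append, eS_snoc, prev_num hv, eS_nil_iff] at h2
        subst h2
        subst hs'
        exact h3
    · intro h
      rcases s with _ | ⟨a, _ | ⟨b, s⟩⟩
      · simp at hs
      · simp only [List.head?_cons, Option.some.injEq] at hs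
        subst hs
        simp at h
      · refine ⟨[a], b, s, rfl, by simp, ?_, h⟩
        have h1 : eS v t [a] = [] ++ v :: List.replicate a t := eS_snoc [] a
        rw [h1, prev_num hv]
  have c5 : ∀ s, (∀ p, Sp v (eS v t s ++ [v]) p → p ≠ [] → ¬ NumP v t (prev t p) (tr t p)) ↔
      s.Nodup := by
    intro s
    rw [all_sp hv (K := fun p => ¬ NumP v t (prev t p) (tr t p)), ← nodup_dec]
    simp only [tr_num hv, prev_num hv, numP_iff hv]
  have c6 : ∀ s, (∀ p, Sp v (eS v t s ++ [v]) p → p ≠ [] → prev t p ≠ [] →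
      EdgeP e t (eE e v t l) (tr t (prev t p)) (tr t p) ∨
      EdgeP e t (eE e v t l) (tr t p) (tr t (prev t p))) ↔
      ∀ s₁ x y s₂, s = s₁ ++ x :: y :: s₂ → (x, y) ∈ l ∨ (x, y).swap ∈ l := by
    intro s
    rw [all_sp hv (K := fun p => prev t p ≠ [] →
      EdgeP e t (eE e v t l) (tr t (prev t p)) (tr t p) ∨
      EdgeP e t (eE e v t l) (tr t p) (tr t (prev t p)))]
    simp only [tr_num hv, prev_num hv, ne_eq, eS_nil_iff, edgeP_iff hev het hv, tr_eS hv]
    constructor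
    · intro h s₁ x y s₂ hs
      have := h (s₁ ++ [x]) y s₂ (by rw [hs]; simp) (by simp)
      simpa using this
    · intro h s₁ a s₂ hs hne
      rcases List.eq_nil_or_concat s₁ with rfl | ⟨s₁, b, rfl⟩
      · exact absurd rfl hne
      · have := h s₁ b a s₂ (by rw [hs]; simp)
        simpa using this
  have c7 : ∀ s, (EdgeP e t (eE e v t l) (tr t (eS v t s)) 0 ∨
      EdgeP e t (eE e v t l) 0 (tr t (eS v t s))) ↔
      ((s.getLastD 0, 0) ∈ l ∨ ((s.getLastD 0, 0) : ℕ × ℕ).swap ∈ l) := by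
    intro s
    rw [edgeP_iff hev het hv, edgeP_iff hev het hv, tr_eS hv]
    rfl
  have c8 : ∀ s, (∀ p, Sp v (rmE e (eE e v t l) ++ [v]) p → p ≠ [] →
      NumP v t (eS v t s) (tr t p)) ↔ ∀ x, Occurs l x → x ∈ s := by
    intro s
    rw [rmE_eE hev het, all_sp hv (K := fun p => NumP v t (eS v t s) (tr t p))]
    simp only [tr_num hv, numP_iff hv, occurs_iff]
    exact all_dec _
  have c9 : ∀ s, (∀ p, Sp v (eS v t s ++ [v]) p → p ≠ [] →
      NumP v t (rmE e (eE e v t l)) (tr t p)) ↔ ∀ x, x ∈ s → Occurs l x := by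
    intro s
    rw [rmE_eE hev het, all_sp hv (K := fun p => NumP v t _ (tr t p))]
    simp only [tr_num hv, numP_iff hv, occurs_iff]
    exact all_dec _
  have main : ∀ s, Cond e v t (eE e v t l) (eS v t s) ↔ IsHamSeq l s := by
    intro s
    unfold Cond IsHamSeq
    constructor
    · rintro ⟨-, -, h3, h4, h5, h6, h7, h8, h9⟩
      have h3' := (c3 s).1 h3
      refine ⟨(c5 s).1 h5, fun x => ⟨(c8 s).1 h8 x, (c9 s).1 h9 x⟩, ?_, h3', (c4 s h3').1 h4⟩
      rcases s with _ | ⟨a, s⟩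
      · simp at h3'
      · simp only [List.head?_cons, Option.some.injEq] at h3'
        subst h3'
        exact (cpairs_dec (Q := fun p => p ∈ l ∨ p.swap ∈ l) s).2 ⟨(c6 _).1 h6, (c7 _).1 h7⟩
    · rintro ⟨h5, h8, h6, h3, h4⟩
      have h67 : (∀ s₁ x y s₂, s = s₁ ++ x :: y :: s₂ → (x, y) ∈ l ∨ (x, y).swap ∈ l) ∧
          ((s.getLastD 0, 0) ∈ l ∨ ((s.getLastD 0, 0) : ℕ × ℕ).swap ∈ l) := by
        rcases s with _ | ⟨a, s⟩
        · simp at h3
        · simp only [List.head?_cons, Option.some.injEq] at h3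
          subst h3
          exact (cpairs_dec (Q := fun p => p ∈ l ∨ p.swap ∈ l) s).1 h6
      exact ⟨c1 s, c2 s, (c3 s).2 h3, (c4 s h3).2 h4, (c5 s).2 h5, (c6 s).2 h67.1,
        (c7 s).2 h67.2, (c8 s).2 fun x hx => (h8 x).1 hx, (c9 s).2 fun x hx => (h8 x).2 hx⟩
  constructor
  · intro h
    obtain ⟨s, rfl⟩ := exists_eS B hB h.1 h.2.1
    exact ⟨s, rfl, (main s).1 h⟩
  · rintro ⟨s, rfl, h⟩
    exact (main s).2 h

end core

end Pool.Agent.HAM.H4
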