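import Pool.Agent.Helper43_HAM.Stmts
import Pool.Agent.Helper53_Chan.Cond

/-!
# Tests on words given by first order conditions on splittings of words
-/

namespace Pool.Agent.HAM.H4

open Pool.Agent.Helper53_CookLevin Pool.Agent.Helper53_Chan

section gen

variable {C : Type}

/-- the word `w` begins with `p` followed by the letter `x` -/
def Sp (x : C) (w p : List C) : Prop := ∃ q, w = p ++ x :: q

theorem scan_nil_iff (f : List C → C → List C) : ∀ (l p : List C),
    scan f p l = [] ↔ ∀ u c q, l = u ++ c :: q → f (p ++ u) c = []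
  | [], p => by simp [scan]
  | c :: l, p => by
    rw [scan, List.append_eq_nil_iff, scan_nil_iff f l (p ++ [c])]
    constructor
    · rintro ⟨h1, h2⟩ u c' q h
      rcases u with _ | ⟨d, u⟩
      · rw [List.nil_append, List.cons.injEq] at h
        rw [List.append_nil, ← h.1]
        exact h1
      · rw [List.cons_append, List.cons.injEq] at h
        have := h2 u c' q h.2
        rw [List.append_assoc, List.singleton_append, h.1] at this
        exact this
    · intro h
      refine ⟨by simpa using h [] c l rfl, fun u c' q hu => ?_⟩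
      have := h (c :: u) c' q (by rw [hu]; rfl)
      rw [List.append_assoc, List.singleton_append]
      exact this

theorem vecCons_zero_succ {m : ℕ} {α : Type} (ρ : Fin (m + 1) → α) :
    Matrix.vecCons (ρ 0) (ρ ∘ Fin.succ) = ρ := by
  funext i
  refine Fin.cases rfl (fun i => rfl) i

theorem Test.not [Inhabited C] {m : ℕ} {P : (Fin m → List C) → Prop} (hP : Test m P) :
    Test m (fun ρ => ¬ P ρ) := by
  classical
  obtain ⟨T, hT, h⟩ := hP
  refine ⟨_, Test.ite (P := fun ρ => T ρ = []) (Test.empty hT) (PGen.const [default])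
    (PGen.const []), fun ρ => ?_⟩
  by_cases hp : T ρ = []
  · have := (h ρ).1 hp
    simp [hp, this]
  · have : ¬ P ρ := fun h' => hp ((h ρ).2 h')
    simp [hp, this]

theorem Test.or [Inhabited C] {m : ℕ} {P Q : (Fin m → List C) → Prop} (hP : Test m P)
    (hQ : Test m Q) : Test m (fun ρ => P ρ ∨ Q ρ) :=
  Test.congr (Test.not (Test.and (Test.not hP) (Test.not hQ))) (fun _ => by tauto)

theorem Test.imp [Inhabited C] {m : ℕ} {P Q : (Fin m → List C) → Prop} (hP : Test m P)
    (hQ : Test m Q) : Test m (fun ρ => P ρ → Q ρ) :=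
  Test.congr (Test.not (Test.and hP (Test.not hQ))) (fun _ => by tauto)

/-- quantification over the splittings of a word at a letter -/
theorem Test.allSp [DecidableEq C] {m : ℕ} (x : C) {F : (Fin m → List C) → List C}
    (hF : PGen m F) {K : List C → (Fin m → List C) → Prop}
    (h : Test (m + 1) (fun ρ => K (ρ 0) (ρ ∘ Fin.succ))) :
    Test m (fun ρ => ∀ p, Sp x (F ρ) p → K p ρ) := by
  obtain ⟨T, hT, h⟩ := h
  refine ⟨_, PGen.loopG hF (K := fun c p ρ => if c = x then T (Matrix.vecCons p ρ) else [])
    (fun c => ?_), fun ρ => ?_⟩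
  · by_cases hc : c = x
    · simp only [hc, if_true]
      exact PGen.congr hT (fun ρ => by rw [vecCons_zero_succ])
    · simp only [hc, if_false]
      exact PGen.const []
  · have hk : ∀ p, T (Matrix.vecCons p ρ) = [] ↔ K p ρ := fun p => by
      have h0 := h (Matrix.vecCons p ρ)
      simp only [Matrix.cons_val_zero, vecCons_comp_succ] at h0
      exact h0
    rw [scan_nil_iff]
    constructor
    · rintro h1 p ⟨q, hq⟩
      have := h1 p x q hq
      rw [if_pos rfl, List.nil_append] at this
      exact (hk p).1 this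
    · intro h1 u c q hu
      by_cases hc : c = x
      · subst hc
        rw [if_pos rfl, List.nil_append]
        exact (hk u).2 (h1 u ⟨q, hu⟩)
      · rw [if_neg hc]

theorem Test.exSp [DecidableEq C] [Inhabited C] {m : ℕ} (x : C) {F : (Fin m → List C) → List C}
    (hF : PGen m F) {K : List C → (Fin m → List C) → Prop}
    (h : Test (m + 1) (fun ρ => K (ρ 0) (ρ ∘ Fin.succ))) :
    Test m (fun ρ => ∃ p, Sp x (F ρ) p ∧ K p ρ) :=
  Test.congr (Test.not (Test.allSp x hF (K := fun p ρ => ¬ K p ρ) (Test.not h)))
    (fun ρ => by simp only [not_forall, not_not, exists_prop])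

theorem scan_flatMap (f : C → List C) : ∀ (l p : List C),
    scan (fun _ c => f c) p l = l.flatMap f
  | [], _ => rfl
  | c :: l, p => by
    rw [scan, scan_flatMap f l, List.flatMap_cons]

/-- morphisms -/
theorem PGen.flatMapG {m : ℕ} (f : C → List C) {F : (Fin m → List C) → List C}
    (hF : PGen m F) : PGen m (fun ρ => (F ρ).flatMap f) :=
  PGen.congr (PGen.loopG hF (K := fun c _ _ => f c) (fun _ => PGen.const _))
    (fun _ => scan_flatMap _ _ _)

/-! ### numbers in unary -/

variable [DecidableEq C]

/-- remove the last number: the letters `t` at the end, and one more letter -/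
def prev (t : C) (w : List C) : List C := (w.reverse.drop (tr t w + 1)).reverse

theorem gval [Inhabited C] {m : ℕ} (t : C) {F : (Fin m → List C) → List C} (hF : PGen m F) :
    PGen m (fun ρ => List.replicate (tr t (F ρ)) t) := PGen.tr t t hF

theorem gprev {m : ℕ} (t : C) {F : (Fin m → List C) → List C} (hF : PGen m F) :
    PGen m (fun ρ => prev t (F ρ)) := by
  refine PGen.congr (PGen.reverse (PGen.dropF (PGen.reverse hF)
    (PGen.append (PGen.tr t t hF) (PGen.const [t])))) (fun ρ => ?_)
  unfold prev
  simp

theorem tr_replicate (t : C) (w : List C) (n : ℕ) :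
    tr t (w ++ List.replicate n t) = tr t w + n := by
  induction n with
  | zero => simp
  | succ n ih =>
    rw [List.replicate_succ', ← List.append_assoc, tr_snoc, if_pos rfl, ih]
    omega

theorem tr_num {t v : C} (hv : v ≠ t) (w : List C) (n : ℕ) :
    tr t (w ++ v :: List.replicate n t) = n := by
  have e : w ++ v :: List.replicate n t = (w ++ [v]) ++ List.replicate n t := by simp
  rw [e, tr_replicate, tr_snoc, if_neg hv, Nat.zero_add]

theorem prev_num {t v : C} (hv : v ≠ t) (w : List C) (n : ℕ) :
    prev t (w ++ v :: List.replicate n t) = w := by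
  unfold prev
  rw [tr_num hv]
  have e : (w ++ v :: List.replicate n t).reverse =
      (List.replicate n t ++ [v]) ++ w.reverse := by simp
  rw [e, List.drop_left' (by simp), List.reverse_reverse]

end gen

/-! ### words composed of blocks -/

section blocks

variable {C : Type} {I : Type}

/-- blocks, each beginning with the letter `x` -/
def bl (x : C) (b : I → List C) (s : List I) : List C := s.flatMap fun a => x :: b a

theorem bl_cons (x : C) (b : I → List C) (a : I) (s : List I) :
    bl x b (a :: s) = x :: (b a ++ bl x b s) := rfl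

theorem bl_append (x : C) (b : I → List C) (s s' : List I) :
    bl x b (s ++ s') = bl x b s ++ bl x b s' := by
  unfold bl
  rw [List.flatMap_append]

theorem bl_snoc (x : C) (b : I → List C) (s : List I) (a : I) :
    bl x b (s ++ [a]) = bl x b s ++ x :: b a := by
  rw [bl_append]
  simp [bl]

theorem bl_eq_nil (x : C) (b : I → List C) (s : List I) : bl x b s = [] ↔ s = [] := by
  rcases s with _ | ⟨a, s⟩
  · simp [bl]
  · simp [bl_cons]

theorem split_left {x : C} : ∀ {u w p q : List C}, x ∉ u → u ++ w = p ++ x :: q →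
    ∃ p', p = u ++ p' ∧ w = p' ++ x :: q
  | [], w, p, q, _, h => ⟨p, rfl, h⟩
  | c :: u, w, [], q, hu, h => by
    rw [List.cons_append, List.nil_append, List.cons.injEq] at h
    exact absurd (h.1 ▸ List.mem_cons_self) hu
  | c :: u, w, d :: p, q, hu, h => by
    rw [List.cons_append, List.cons_append, List.cons.injEq] at h
    obtain ⟨p', hp, hw⟩ := split_left (fun h' => hu (List.mem_cons_of_mem _ h')) h.2
    exact ⟨p', by rw [hp, h.1]; rfl, hw⟩

/-- the splittings of a word composed of blocks -/
theorem sp_bl {x : C} {b : I → List C} (hb : ∀ a, x ∉ b a) : ∀ (s : List I) (p : List C),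
    Sp x (bl x b s ++ [x]) p ↔ ∃ s₁ s₂, s = s₁ ++ s₂ ∧ p = bl x b s₁
  | [], p => by
    constructor
    · rintro ⟨q, hq⟩
      refine ⟨[], [], rfl, ?_⟩
      rcases p with _ | ⟨d, p⟩
      · rfl
      · have := congrArg List.length hq
        simp [bl] at this
    · rintro ⟨s₁, s₂, h, rfl⟩
      obtain ⟨rfl, rfl⟩ := List.append_eq_nil_iff.1 h.symm
      exact ⟨[], rfl⟩
  | a :: s, p => by
    constructor
    · rintro ⟨q, hq⟩
      rcases p with _ | ⟨d, p⟩
      · exact ⟨[], a :: s, rfl, rfl⟩
      · rw [bl_cons, List.cons_append, List.cons_append, List.cons.injEq, List.append_assoc] at hq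
        obtain ⟨p', hp, hw⟩ := split_left (hb a) hq.2
        obtain ⟨s₁, s₂, h, rfl⟩ := (sp_bl hb s p').1 ⟨q, hw⟩
        exact ⟨a :: s₁, s₂, by rw [h]; rfl, by rw [bl_cons, hp, hq.1]⟩
    · rintro ⟨s₁, s₂, h, rfl⟩
      rcases s₁ with _ | ⟨a', s₁⟩
      · exact ⟨b a ++ bl x b s ++ [x], by rw [bl_cons]; rfl⟩
      · rw [List.cons_append, List.cons.injEq] at h
        obtain ⟨rfl, rfl⟩ := h
        obtain ⟨q, hq⟩ := (sp_bl hb (s₁ ++ s₂) (bl x b s₁)).2 ⟨s₁, s₂, rfl, rfl⟩
        exact ⟨q, by rw [bl_cons, bl_cons, List.cons_append, List.append_assoc, hq]; simp⟩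

end blocks

end Pool.Agent.HAM.H4
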